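import Pool.Agent.Q120.ME.Stm

/-!
# Project RC: runs, record gaps (definitions and first facts)
-/

set_option autoImplicit false

namespace Pool.Agent.Q120.RC

open Finset

/-- Some `g` consecutive integers below `n` are outside `S`. -/
def HasRun (S : Set ℕ) (n g : ℕ) : Prop := ∃ m, m + g ≤ n ∧ ∀ j, m ≤ j → j < m + g → j ∉ S

open Classical in
/-- The length of the longest run of consecutive integers below `n` outside `S`. -/
noncomputable def mx (S : Set ℕ) (n : ℕ) : ℕ := Nat.findGreatest (HasRun S n) n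

/-- The run that ends at `n - 1` is longer than all runs below `n - 1`. -/
def up (S : Set ℕ) (n : ℕ) : Prop := mx S (n - 1) < mx S n

theorem hasRun_zero (S : Set ℕ) (n : ℕ) : HasRun S n 0 := ⟨0, by omega, fun j _ h => by omega⟩

theorem HasRun.le {S : Set ℕ} {n g : ℕ} (h : HasRun S n g) : g ≤ n := by
  obtain ⟨m, hm, -⟩ := h
  omega

theorem HasRun.mono {S : Set ℕ} {n n' g g' : ℕ} (h : HasRun S n g) (hn : n ≤ n') (hg : g' ≤ g) : HasRun S n' g' := by
  obtain ⟨m, hm, hr⟩ := h
  exact ⟨m, by omega, fun j h1 h2 => hr j h1 (by omega)⟩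

theorem hasRun_mx (S : Set ℕ) (n : ℕ) : HasRun S n (mx S n) := by
  classical
  unfold mx
  exact Nat.findGreatest_spec (P := HasRun S n) (Nat.zero_le n) (hasRun_zero S n)

theorem le_mx_iff {S : Set ℕ} {n g : ℕ} : g ≤ mx S n ↔ HasRun S n g := by
  classical
  constructor
  · intro h
    exact (hasRun_mx S n).mono le_rfl h
  · intro h
    unfold mx
    exact Nat.le_findGreatest h.le h

theorem mx_le (S : Set ℕ) (n : ℕ) : mx S n ≤ n := (hasRun_mx S n).le

theorem mx_zero (S : Set ℕ) : mx S 0 = 0 := Nat.le_zero.1 (mx_le S 0)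

theorem mx_mono (S : Set ℕ) : Monotone (mx S) := fun _ _ h => le_mx_iff.2 ((hasRun_mx S _).mono h le_rfl)

theorem mx_succ_le (S : Set ℕ) (n : ℕ) : mx S (n + 1) ≤ mx S n + 1 := by
  by_contra h
  rw [not_le] at h
  obtain ⟨m, hm, hr⟩ := hasRun_mx S (n + 1)
  have h1 : mx S (n + 1) - 1 ≤ mx S n := by
    rw [le_mx_iff]
    exact ⟨m, by omega, fun j h1 h2 => hr j h1 (by omega)⟩
  omega

theorem hasRun_congr {S S' : Set ℕ} {n g : ℕ} (h : ∀ j < n, (j ∈ S ↔ j ∈ S')) : HasRun S n g ↔ HasRun S' n g := by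
  constructor
  · rintro ⟨m, hm, hr⟩
    exact ⟨m, hm, fun j h1 h2 h3 => hr j h1 h2 ((h j (by omega)).2 h3)⟩
  · rintro ⟨m, hm, hr⟩
    exact ⟨m, hm, fun j h1 h2 h3 => hr j h1 h2 ((h j (by omega)).1 h3)⟩

/-- `mx S n` depends on `S ∩ [0, n)` only. -/
theorem mx_congr {S S' : Set ℕ} {n : ℕ} (h : ∀ j < n, (j ∈ S ↔ j ∈ S')) : mx S n = mx S' n := by
  apply le_antisymm
  · rw [le_mx_iff, ← hasRun_congr h]
    exact hasRun_mx S n
  · rw [le_mx_iff, hasRun_congr h]
    exact hasRun_mx S' n

/-- `up S n` depends on `S ∩ [0, n)` only. -/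
theorem up_congr {S S' : Set ℕ} {n : ℕ} (h : ∀ j < n, (j ∈ S ↔ j ∈ S')) : up S n ↔ up S' n := by
  unfold up
  rw [mx_congr h, mx_congr (S := S) (S' := S') (n := n - 1) (fun j hj => h j (by omega))]

theorem not_up_zero (S : Set ℕ) : ¬ up S 0 := by
  unfold up
  simp

theorem up_pos {S : Set ℕ} {n : ℕ} (h : up S n) : 0 < n := by
  rcases Nat.eq_zero_or_pos n with h1 | h1
  · rw [h1] at h
    exact absurd h (not_up_zero S)
  · exact h1

theorem up_mx {S : Set ℕ} {n : ℕ} (h : up S n) : mx S n = mx S (n - 1) + 1 := by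
  have h1 := up_pos h
  have h2 := mx_succ_le S (n - 1)
  rw [Nat.sub_add_cancel h1] at h2
  unfold up at h
  omega

/-- At an `up` step the last `mx S n` integers below `n` are outside `S`. -/
theorem up_run {S : Set ℕ} {n : ℕ} (h : up S n) : ∀ j, n - mx S n ≤ j → j < n → j ∉ S := by
  obtain ⟨m, hm, hr⟩ := hasRun_mx S n
  have h1 := up_pos h
  have h2 : n - 1 < m + mx S n := by
    by_contra h3
    rw [not_lt] at h3
    have h4 : mx S n ≤ mx S (n - 1) := le_mx_iff.2 ⟨m, h3, hr⟩
    unfold up at h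
    omega
  intro j h3 h4
  exact hr j (by omega) (by omega)

theorem not_up_of_mem {S : Set ℕ} {n : ℕ} (h : n ∈ S) : ¬ up S (n + 1) := by
  intro h1
  have h2 := up_mx h1
  exact up_run h1 n (by omega) (by omega) h

/-- A run before `n` longer than `mx S (n - 1)`. -/
theorem up_of_run {S : Set ℕ} {n g : ℕ} (hg : g ≤ n) (h : ∀ j, n - g ≤ j → j < n → j ∉ S) (h1 : mx S (n - 1) < g) :
    up S n ∧ mx S n = g := by
  have h2 : g ≤ mx S n := le_mx_iff.2 ⟨n - g, by omega, fun j h3 h4 => h j h3 (by omega)⟩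
  have h3 : up S n := by
    unfold up
    omega
  refine ⟨h3, ?_⟩
  have h4 := up_mx h3
  omega

/-- `mx` is constant outside the `up` steps. -/
theorem mx_of_not_up {S : Set ℕ} {n : ℕ} (h : ¬ up S n) : mx S n = mx S (n - 1) := by
  unfold up at h
  have h1 := mx_mono S (show n - 1 ≤ n by omega)
  omega

open Classical in
/-- The number of the record gaps that end below `x`: `n ∈ S` and the run before `n` is longer than all runs before. -/
noncomputable def recS (S : Set ℕ) (x : ℕ) : ℕ := ((range x).filter (fun n => n ∈ S ∧ up S n)).card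

open Classical in
/-- The number of these `n` with `mx S n ≤ b n`. -/
noncomputable def recb (b : ℕ → ℝ) (S : Set ℕ) (x : ℕ) : ℕ := ((range x).filter (fun n => n ∈ S ∧ up S n ∧ (mx S n : ℝ) ≤ b n)).card

open Classical in
/-- The number of these `n` with `b n < mx S n`. -/
noncomputable def rece (b : ℕ → ℝ) (S : Set ℕ) (x : ℕ) : ℕ := ((range x).filter (fun n => n ∈ S ∧ up S n ∧ b n < (mx S n : ℝ))).card

open Classical in
/-- The sum of the `p n` over the `up` steps. -/
noncomputable def inc (p : ℕ → ℝ) (S : Set ℕ) (x : ℕ) : ℝ := ∑ n ∈ (range x).filter (fun n => up S n), p n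

open Classical in
/-- The sum of the `p n` over the `up` steps with `mx S n ≤ b n`. -/
noncomputable def incb (p b : ℕ → ℝ) (S : Set ℕ) (x : ℕ) : ℝ := ∑ n ∈ (range x).filter (fun n => up S n ∧ (mx S n : ℝ) ≤ b n), p n

theorem recS_eq (b : ℕ → ℝ) (S : Set ℕ) (x : ℕ) : recS S x = recb b S x + rece b S x := by
  classical
  unfold recS recb rece
  rw [← card_union_of_disjoint]
  · congr 1
    ext n
    simp only [mem_filter, mem_union]
    have := le_or_gt (mx S n : ℝ) (b n)
    tauto
  · rw [disjoint_left]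
    intro n h1 h2
    exact absurd (mem_filter.1 h1).2.2.2 (not_le.2 (mem_filter.1 h2).2.2.2)

theorem recS_mono (S : Set ℕ) : Monotone (recS S) := by
  classical
  intro x y h
  exact card_le_card (filter_subset_filter _ (range_mono h))

theorem recb_mono (b : ℕ → ℝ) (S : Set ℕ) : Monotone (recb b S) := by
  classical
  intro x y h
  exact card_le_card (filter_subset_filter _ (range_mono h))

theorem rece_mono (b : ℕ → ℝ) (S : Set ℕ) : Monotone (rece b S) := by
  classical
  intro x y h
  exact card_le_card (filter_subset_filter _ (range_mono h))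

theorem inc_mono {p : ℕ → ℝ} (hp : ∀ n, 0 ≤ p n) (S : Set ℕ) : Monotone (inc p S) := by
  classical
  intro x y h
  exact sum_le_sum_of_subset_of_nonneg (filter_subset_filter _ (range_mono h)) (fun n _ _ => hp n)

theorem incb_mono {p : ℕ → ℝ} (hp : ∀ n, 0 ≤ p n) (b : ℕ → ℝ) (S : Set ℕ) : Monotone (incb p b S) := by
  classical
  intro x y h
  exact sum_le_sum_of_subset_of_nonneg (filter_subset_filter _ (range_mono h)) (fun n _ _ => hp n)

theorem incb_le_inc {p : ℕ → ℝ} (hp : ∀ n, 0 ≤ p n) (b : ℕ → ℝ) (S : Set ℕ) (x : ℕ) : incb p b S x ≤ inc p S x := by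
  classical
  refine sum_le_sum_of_subset_of_nonneg (fun n hn => ?_) (fun n _ _ => hp n)
  rw [mem_filter] at hn ⊢
  exact ⟨hn.1, hn.2.1⟩

/-- All these quantities depend on `S ∩ [0, x)` only. -/
theorem recS_congr {S S' : Set ℕ} {x : ℕ} (h : ∀ j < x, (j ∈ S ↔ j ∈ S')) : recS S x = recS S' x := by
  classical
  unfold recS
  congr 1
  apply filter_congr
  intro n hn
  rw [mem_range] at hn
  rw [h n hn, up_congr (fun j hj => h j (by omega))]

theorem recb_congr (b : ℕ → ℝ) {S S' : Set ℕ} {x : ℕ} (h : ∀ j < x, (j ∈ S ↔ j ∈ S')) : recb b S x = recb b S' x := by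
  classical
  unfold recb
  congr 1
  apply filter_congr
  intro n hn
  rw [mem_range] at hn
  rw [h n hn, up_congr (fun j hj => h j (by omega)), mx_congr (fun j hj => h j (by omega))]

theorem rece_congr (b : ℕ → ℝ) {S S' : Set ℕ} {x : ℕ} (h : ∀ j < x, (j ∈ S ↔ j ∈ S')) : rece b S x = rece b S' x := by
  classical
  unfold rece
  congr 1
  apply filter_congr
  intro n hn
  rw [mem_range] at hn
  rw [h n hn, up_congr (fun j hj => h j (by omega)), mx_congr (fun j hj => h j (by omega))]

theorem inc_congr (p : ℕ → ℝ) {S S' : Set ℕ} {x : ℕ} (h : ∀ j < x, (j ∈ S ↔ j ∈ S')) : inc p S x = inc p S' x := by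
  classical
  unfold inc
  refine sum_congr (filter_congr ?_) (fun _ _ => rfl)
  intro n hn
  rw [mem_range] at hn
  rw [up_congr (fun j hj => h j (by omega))]

theorem incb_congr (p b : ℕ → ℝ) {S S' : Set ℕ} {x : ℕ} (h : ∀ j < x, (j ∈ S ↔ j ∈ S')) : incb p b S x = incb p b S' x := by
  classical
  unfold incb
  refine sum_congr (filter_congr ?_) (fun _ _ => rfl)
  intro n hn
  rw [mem_range] at hn
  rw [up_congr (fun j hj => h j (by omega)), mx_congr (fun j hj => h j (by omega))]

open Classical in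
/-- The part of `T` below `n`. -/
noncomputable def pre (T : Finset ℕ) (n : ℕ) : Finset ℕ := T.filter (fun j => j < n)

theorem mem_pre {T : Finset ℕ} {n j : ℕ} : j ∈ pre T n ↔ j ∈ T ∧ j < n := by
  classical
  unfold pre
  rw [mem_filter]

theorem up_pre (T : Finset ℕ) (n : ℕ) : up (pre T n : Set ℕ) n ↔ up (T : Set ℕ) n :=
  up_congr (fun j hj => by simp [mem_pre, hj])

theorem mx_pre (T : Finset ℕ) (n : ℕ) : mx (pre T n : Set ℕ) n = mx (T : Set ℕ) n :=
  mx_congr (fun j hj => by simp [mem_pre, hj])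

/-- The law on the subsets of `[0, x)` of the random set that contains `n` with probability `r n (A ∩ [0, n))`, given `A ∩ [0, n)`. -/
noncomputable def seqlaw (r : ℕ → Finset ℕ → ℝ) (x : ℕ) (T : Finset ℕ) : ℝ :=
  ∏ n ∈ range x, if n ∈ T then r n (pre T n) else 1 - r n (pre T n)

theorem seqlaw_const (p : ℕ → ℝ) (x : ℕ) (T : Finset ℕ) : seqlaw (fun n _ => p n) x T = ME.bern p (range x) T := rfl

/-- The rates: `0 < p n < 1`, nonincreasing, `p n * (log n) ^ κ → c`. -/
structure Mod (κ c : ℝ) (p : ℕ → ℝ) : Prop where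
  pos : ∀ n, 0 < p n
  lt_one : ∀ n, p n < 1
  anti : Antitone p
  lim : Filter.Tendsto (fun n : ℕ => p n * Real.log n ^ κ) Filter.atTop (nhds c)

/-- The natural size of the longest run below `n`. -/
noncomputable def b0 (κ c : ℝ) (n : ℕ) : ℝ := Real.log n ^ (κ + 1) / c

/-- The rate function of the number of record gaps. -/
noncomputable def hK (κ u : ℝ) : ℝ := u * Real.log (u / (κ + 1)) - u + (κ + 1)

/-- `n ∈ S` and the distance of `n` to the preceding element `m` of `S` is larger than all earlier distances of consecutive elements. -/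
def IsRec (S : Set ℕ) (n : ℕ) : Prop := n ∈ S ∧ ∃ m ∈ S, m < n ∧ (∀ j, m < j → j < n → j ∉ S) ∧
  ∀ a ∈ S, ∀ b ∈ S, a < b → b ≤ m → (∀ j, a < j → j < b → j ∉ S) → b - a < n - m

open Classical in
/-- The number of the record gaps of `S` that end below `x`. -/
noncomputable def rc (S : Set ℕ) (x : ℕ) : ℕ := ((range x).filter (fun n => IsRec S n)).card

end Pool.Agent.Q120.RC
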