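import Pool.Agent.Q120.RC.Base
import Pool.Agent.Q120.LW.Stm

/-!
# Project RC: the number of record gaps (maximal gaps), for ALL random sets near the model

Model: `n` is in the set independently with probability `p n ~ c / (log n) ^ κ` (Cramér's model: `κ = c = 1`; twin primes `κ = 2`, …). The
largest gap up to `x` is about `b0 x = (log x) ^ (κ + 1) / c`. Main facts: the number `R(x)` of the record gaps (gaps longer than all before)
up to `x` is `~ (κ + 1) log x`, and `R` behaves like a Poisson variable of mean `(κ + 1) log x`. For ANY random set `A` let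
`D(x) = relEnt p μ A (range x)` be the relative entropy (nats) of the law of `A ∩ [0, x)` with respect to the model. Results:
(1) for nondecreasing `d ≥ 0` these are equivalent: `R(x) ~ (κ + 1) log x` almost surely for ALL `A` with `D(x) ≤ d x`; the longest gap up to `x` is
`~ b0 x` almost surely for ALL these `A` (Cramér's conjecture); `∑ d n / (n log² n) < ∞`;
(2) class `δ`: `D(x) ≤ (δ + o(1)) log x`. A probability measure `ν` on `[0, ∞)` is the law of `lim R(x) / log x` for some `A` of class `δ` iff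
`∫ (u log (u / (κ + 1)) - u + κ + 1) dν(u) ≤ δ`.

THE IDEA. `mx S n` = length of the longest run of consecutive integers below `n` outside `S`; `up S n` (an `up` step) means that the run
ending at `n - 1` is longer than all runs before, i.e. `mx S n = mx S (n - 1) + 1`. So `mx` increases by `1` exactly at the `up` steps and
`R` counts the `up` steps with `n ∈ S`: given the past, each of them is a record with probability `p n`. Hence
`E exp (s R - (e ^ s - 1) ∑_{up} p n) ≤ 1` EXACTLY (job SUP), and `∑_{up, n < x} p n = ∑ p n (mx n - mx (n - 1))` is, by partial summation and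
`mx ~ b0`, asymptotic to `∑ p n (b0 n - b0 (n - 1)) ~ (κ + 1) log x` (jobs ABU, ABL, ASY).

Each job is a definition `J_… : Prop`; a theorem `t_… : J_…` (with the named jobs as hypotheses) is to be proved. The proofs are complete in
the docstrings. `RC.Base` has the facts on `mx`, `up`, `recS`, … Notation from `ME.Stm` (`bern`, `relEnt`, `kl`, `hfun`, `Mixed`; proved jobs of ME and LW
may be used: `J_DV`, `J_EVT`, `J_CON`, `J_ENM`, `J_KLB` of ME, `J_MIX` of LW) and `ET.Law` (`tr`, `mem_tr`, `real_event`, `sum_law`).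
-/

set_option autoImplicit false

namespace Pool.Agent.Q120.RC

open Finset MeasureTheory Filter Pool.Agent.Q120.ET Pool.Agent.Q120.ME
open scoped Topology

/-- **Job SMG.** Marginals of the sequential laws.
Proof. Induction on `y`: the subsets of `range (y + 1)` are the `T` and `insert y T` with `T ⊆ range y`; `seqlaw r (y + 1) T = seqlaw r y T * (1 - r y T)` and
`seqlaw r (y + 1) (insert y T) = seqlaw r y T * r y T` (`pre T y = T`; `pre` of both at `n ≤ y` is the same). -/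
def J_SMG : Prop := ∀ (r : ℕ → Finset ℕ → ℝ) (x y : ℕ), x ≤ y →
  (∑ T ∈ (range y).powerset, seqlaw r y T = 1) ∧
  ∀ f : Finset ℕ → ℝ, ∑ T ∈ (range y).powerset, seqlaw r y T * f (pre T x) = ∑ T ∈ (range x).powerset, seqlaw r x T * f T

open Classical in
/-- **Job SUP.** The exponential supermartingale.
Proof. Induction on `x` as in SMG: for `T ⊆ range x` with `W x T` the two terms of `T` and `insert x T` are the term of `T` times
`(1 - r) exp (-(e ^ s - 1) r) + r exp (s - (e ^ s - 1) r) = (1 + (e ^ s - 1) r) exp (-(e ^ s - 1) r) ≤ 1`, `r = r x T`, as `1 + y ≤ exp y`; if `W x T` is false, times `1`. -/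
def J_SUP : Prop := ∀ (r : ℕ → Finset ℕ → ℝ), (∀ n T, 0 ≤ r n T ∧ r n T ≤ 1) → ∀ (W : ℕ → Finset ℕ → Prop) (s : ℝ) (x : ℕ),
  ∑ T ∈ (range x).powerset, seqlaw r x T * Real.exp (s * ((range x).filter (fun n => n ∈ T ∧ W n (pre T n))).card
    - (Real.exp s - 1) * ∑ n ∈ (range x).filter (fun n => W n (pre T n)), r n (pre T n)) ≤ 1

/-- **Job ABU.** Partial summation, upper bound.
Proof. `m n = min (mx S n) (b n)`: `m 0 = 0`, nondecreasing, and `m n - m (n - 1) ≥ 1` at an `up` step with `mx S n ≤ b n` (`up_mx`). So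
`incb ≤ ∑_{1 ≤ n < x} p n (m n - m (n - 1))`. With `Δ n = b n - m n ≥ 0`, by induction on `N`, `∑_{1 ≤ n ≤ N} p n (Δ n - Δ (n - 1)) ≥ p N Δ N - p 0 Δ 0` (`p` nonincreasing), `Δ 0 = b 0`. -/
def J_ABU : Prop := ∀ (p b : ℕ → ℝ), (∀ n, 0 ≤ p n) → Antitone p → Monotone b → (∀ n, 0 ≤ b n) → ∀ (S : Set ℕ) (x : ℕ),
  incb p b S x ≤ p 0 * b 0 + ∑ n ∈ Ico 1 x, p n * (b n - b (n - 1))

/-- **Job ABL.** Partial summation, lower bound.
Proof. `inc p S x = ∑_{1 ≤ n < x} p n (mx n - mx (n - 1))` (`up_mx`, `mx_of_not_up`). The part with `n ≤ N` is at least `p N * mx N` (induction, `p` nonincreasing); with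
`Δ n = mx n - b n ≥ 0` for `N ≤ n < x`: `∑_{N < n < x} p n (Δ n - Δ (n - 1)) ≥ - p N Δ N` (induction). -/
def J_ABL : Prop := ∀ (p b : ℕ → ℝ), (∀ n, 0 ≤ p n) → Antitone p → Monotone b → (∀ n, 0 ≤ b n) → ∀ (S : Set ℕ) (N x : ℕ),
  (∀ n, N ≤ n → n < x → b n ≤ mx S n) → ∑ n ∈ Ico (N + 1) x, p n * (b n - b (n - 1)) ≤ inc p S x

/-- **Job ASY.** The asymptotics.
Proof. For `n ≥ 3` the mean value theorem: `b0 n - b0 (n - 1) = (κ + 1) / c * log ξ ^ κ / ξ`, `n - 1 ≤ ξ ≤ n`, so `n * p n * (b0 n - b0 (n - 1)) → κ + 1` (`log (n - 1) / log n → 1`), and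
`∑_{n < x} 1 / n ~ log x` (weighted Cesàro / Stolz). -/
def J_ASY : Prop := ∀ (κ c : ℝ) (p : ℕ → ℝ), 0 < κ → 0 < c → Mod κ c p →
  Tendsto (fun x : ℕ => (∑ n ∈ Ico 1 x, p n * (b0 κ c n - b0 κ c (n - 1))) / Real.log x) atTop (𝓝 (κ + 1))

open Classical in
/-- **Job LOWP.** The longest run is not short.
Proof. `h = n / 2` (natural division), `g = ⌈(1 - ε) b0 n⌉₊`, `w = (n - h) / g` disjoint windows `[h + i g, h + (i + 1) g)` in `[h, n)`. If `mx T n < (1 - ε) b0 n ≤ g`, no window avoids `T`. A window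
avoids `T` with probability `∏ (1 - p j) ≥ (1 - p h) ^ g ≥ n ^ (-(1 - ε / 2))` for large `n` (`p h * log n ^ κ → c`, `log (1 - p) ≥ -(1 + ε / 8) p` for small `p`, `g ≤ (1 - ε) b0 n + 1`). The windows are independent:
probability at most `(1 - n ^ (-(1 - ε / 2))) ^ w ≤ exp (-w n ^ (-(1 - ε / 2)))`, and `w ≥ n / (4 g)`, `g = O(log ^ (κ + 1) n)`, so `θ = ε / 4` works. -/
def J_LOWP : Prop := ∀ (κ c : ℝ) (p : ℕ → ℝ), 0 < κ → 0 < c → Mod κ c p → ∀ ε : ℝ, 0 < ε → ε < 1 → ∃ θ : ℝ, 0 < θ ∧ ∀ᶠ n : ℕ in atTop,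
  ∑ T ∈ (range n).powerset.filter (fun T : Finset ℕ => (mx (T : Set ℕ) n : ℝ) < (1 - ε) * b0 κ c n), bern p (range n) T ≤ Real.exp (-(n : ℝ) ^ θ)

/-- **Job ELE.** Record gaps far above the natural size are rare.
Proof. `g n = ⌊(1 + ε) b0 n⌋₊`, `N_x(T) = #{n < x : n ∈ T, T ∩ [n - g n, n) = ∅} ≥ rece` (`up_run`). `Φ(x) = ∑ bern exp (t N_x)`: splitting off the integer `x`,
`Φ(x + 1) = Φ(x) + (e ^ t - 1) ∑_{T ⊆ range x, T ∩ [x - g x, x) = ∅} p x bern(T) exp (t N_x(T))`; for these `T` `N_x(T) = N_{x - g x}(T)` (nothing in the window), so the sum is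
`p x * q x * Φ(x - g x) ≤ q x Φ(x)`, `q x = ∏_{j ∈ [x - g x, x)} (1 - p j)` (`Φ` is nondecreasing). So `Φ(x) ≤ exp ((e ^ t - 1) ∑ q n)`, and
`q n ≤ (1 - p n) ^ (g n) ≤ e exp (-(1 + ε) p n b0 n) ≤ n ^ (-(1 + ε / 3))`-like for large `n`, summable (for `ε ≤ 1`; the left side decreases with `ε`). -/
def J_ELE : Prop := ∀ (κ c : ℝ) (p : ℕ → ℝ), 0 < κ → 0 < c → Mod κ c p → ∀ ε t : ℝ, 0 < ε → 0 ≤ t → ∃ C : ℝ, ∀ x : ℕ,
  ∑ T ∈ (range x).powerset, bern p (range x) T * Real.exp (t * rece (fun n => (1 + ε) * b0 κ c n) (T : Set ℕ) x) ≤ C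

open Classical in
/-- **Job CHR** (uses SMG, SUP, ABU, ABL, ASY, LOWP, ELE). Large deviations of the number of record gaps in the model.
Proof. `K = κ + 1`, `ℓ = log x`, `η` small, `b = (1 + η) b0`. Upper part: `recS = recb + rece`; `P(rece > (ε / 2) ℓ) ≤ C exp (-(ε / 2) ℓ)` (ELE with `t = 1`). SUP with `r n T = p n`,
`W n T = (up T n ∧ mx T n ≤ b n)` (`up_pre`, `mx_pre`), `s > 0` small: on `recb > (K + ε / 2) ℓ` the exponent is at least `s (K + ε / 2) ℓ - (e ^ s - 1) ((1 + η) (K + η) ℓ + C')` (ABU, ASY), and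
`s (K + ε / 2) - (e ^ s - 1) (1 + η) (K + η) > 0` for small `s`, `η`. Lower part: let `M` be the event that `mx T n ≥ (1 - η) b0 n` for all `n` with `x ^ η ≤ n < x`; its complement has probability at most
`∑ exp (-n ^ θ)` (LOWP, SMG), superpolynomially small. On `M` `inc ≥ (1 - η) ∑_{x ^ η < n < x} p n (b0 n - b0 (n - 1)) - … ≥ (K - C η) ℓ` (ABL with `b = (1 - η) b0`, ASY at `x` and at `x ^ η`). SUP with
`W n T = up T n`, `s = -σ < 0`: on `M` and `recS < (K - ε) ℓ` the exponent is at least `-σ (K - ε) ℓ + (1 - e ^ (-σ)) (K - C η) ℓ ≥ θ ℓ` for small `σ`, `η`. -/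
def J_CHR : Prop := ∀ (κ c : ℝ) (p : ℕ → ℝ), 0 < κ → 0 < c → Mod κ c p → ∀ ε : ℝ, 0 < ε → ∃ θ : ℝ, 0 < θ ∧ ∀ᶠ x : ℕ in atTop,
  ∑ T ∈ (range x).powerset.filter (fun T : Finset ℕ => ε * Real.log x < |(recS (T : Set ℕ) x : ℝ) - (κ + 1) * Real.log x|), bern p (range x) T ≤
    Real.exp (-(θ * Real.log x))

/-- **Job ASU** (uses `J_EVT` of ME, CHR, MLO (stated below)). The almost sure laws (pattern: the proof of `J_ASU` of ME).
Proof. `0 < ε`, `r = 1 + ε`, `y j = ⌈exp (r ^ j)⌉₊`. By CHR and `J_EVT` (`K = θ log (y j)`; `recS (A ω) x = recS (tr A (range x) ω) x` by `recS_congr`) the probability that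
`|recS (y j) - (κ + 1) log (y j)| > ε log (y j)` is at most `(d (y j) + log 2) / (θ r ^ j)` for large `j`: summable, since `∑_{y j ≤ n < y (j + 1)} d n / (n log² n) ≥ d (y j) (1 / log (y j) - 1 / log (y (j + 1)))` is at least
`c' d (y j) / r ^ j`. First Borel-Cantelli lemma, `recS` is nondecreasing in `x`, `log (y (j + 1)) / log (y j) → r`; `ε = 1 / (i + 1) → 0`. The same for `mx`: in the model `P(mx T x > (1 + ε) b0 x) ≤ x (1 - p x) ^ ((1 + ε) b0 x) ≤ x ^ (-ε / 2)`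
for large `x` (union over the windows), and the lower bound is MLO (the condition on `d` implies `d x ≤ log² x` for large `x`: `d x / log x` is at most a constant times the tail of the series, `d` nondecreasing). -/
def J_ASU : Prop := ∀ (κ c : ℝ) (p d : ℕ → ℝ), 0 < κ → 0 < c → Mod κ c p → Monotone d → (∀ n, 0 ≤ d n) →
  Summable (fun n : ℕ => d n / (n * Real.log n ^ 2)) →
  ∀ (Ω : Type) [MeasurableSpace Ω] (μ : Measure Ω) [IsProbabilityMeasure μ] (A : Ω → Set ℕ), IsRandomSet A →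
    (∀ᶠ x : ℕ in atTop, relEnt p μ A (range x) ≤ d x) →
    ∀ᵐ ω ∂μ, Tendsto (fun x : ℕ => (recS (A ω) x : ℝ) / Real.log x) atTop (𝓝 (κ + 1)) ∧
      Tendsto (fun x : ℕ => (mx (A ω) x : ℝ) / b0 κ c x) atTop (𝓝 1)

/-- **Job ASL** (uses `J_CON`, `J_ENM` of ME). Sharpness (pattern: the proof of `J_ASL` of ME).
Proof. `y j = ⌈exp (2 ^ j)⌉₊`, `g j = ⌈3 * b0 (y (j + 1))⌉₊` (so `y j + 3 g j < y (j + 1)` for `j ≥ J₀`), `e j = d (y j) - d (y (j - 1)) ≥ 0`, `C = 16 * 2 ^ (κ + 1)`, `q j = min 1 (e j / (C * 2 ^ j))` for `j ≥ J₀`, else `0`.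
`∑ q j = ∞`: otherwise `∑ e j / 2 ^ j < ∞`, so `∑ d (y (j + 1)) / 2 ^ j < ∞` (summation by parts), but `∑_{y j ≤ n < y (j + 1)} d n / (n log² n) ≤ C' d (y (j + 1)) / 2 ^ j`. `ξ j` independent switches with
`P(ξ j = 1) = q j`; `r ξ n = 0` if `ξ j = 1` and `y j ≤ n < y j + g j`, otherwise `p n`. `J_ENM`: for `y j < x ≤ y (j + 1)` `relEnt ≤ ∑_{i ≤ j} q i ∑_{window i} (-log (1 - p n)) ≤ ∑_{i ≤ j} q i * 2 * p (y i) * g i ≤
∑_{i ≤ j} q i * C * 2 ^ i ≤ d (y j) ≤ d x` (for large `i`: `p (y i) ≤ 2 c / 2 ^ (i κ)`, `g i ≤ 4 * 2 ^ ((i + 1) (κ + 1)) / c`). Natural runs: `h n = ⌈2 b0 n⌉₊`; for `y j + g j + h n ≤ n ≤ y (j + 1)` the integers `[n - h n, n)` are outside `A` with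
probability `∏ (1 - p) ≤ (1 - p n) ^ (h n) ≤ n ^ (-3 / 2)` for large `n`; by Borel-Cantelli almost surely this happens for finitely many `n` only. Let `ξ j = 1`, `j` large, and `n ∈ A`, `up A n`, `y j < n < y (j + 1)`. Then
`n ≥ y j + g j`, the run before `n` is longer than the window (`≥ g j ≥ 3 b0 (y (j + 1)) ≥ h n`), so `n < y j + g j + h n`, the run meets the window, and `n` is the first element of `A` after the window: there is at most one
such `n`. So `recS (y (j + 1)) ≤ recS (y j + 1) + 1 ≤ recS (y j) + 2` for infinitely many `j` (second Borel-Cantelli lemma), which contradicts `recS x / log x → κ + 1 > 0` (`log (y (j + 1)) / log (y j) → 2`). Also `mx A (y (j + 1)) ≥ g j ≥ 3 b0 (y (j + 1))` for these `j`, which contradicts `mx / b0 → 1`. -/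
def J_ASL : Prop := ∀ (κ c : ℝ) (p d : ℕ → ℝ), 0 < κ → 0 < c → Mod κ c p → Monotone d → (∀ n, 0 ≤ d n) →
  ¬ Summable (fun n : ℕ => d n / (n * Real.log n ^ 2)) →
  ∃ (Ω : Type) (_ : MeasurableSpace Ω) (μ : Measure Ω) (_ : IsProbabilityMeasure μ) (A : Ω → Set ℕ), IsRandomSet A ∧
    (∀ᶠ x : ℕ in atTop, relEnt p μ A (range x) ≤ d x) ∧
    ∀ᵐ ω ∂μ, ¬ Tendsto (fun x : ℕ => (recS (A ω) x : ℝ) / Real.log x) atTop (𝓝 (κ + 1)) ∧
      ¬ Tendsto (fun x : ℕ => (mx (A ω) x : ℝ) / b0 κ c x) atTop (𝓝 1)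

/-- The class `δ`. -/
def RCls (p : ℕ → ℝ) (δ : ℝ) {Ω : Type} [MeasurableSpace Ω] (μ : Measure Ω) (A : Ω → Set ℕ) : Prop :=
  IsRandomSet A ∧ ∀ ε : ℝ, 0 < ε → ∀ᶠ x : ℕ in atTop, relEnt p μ A (range x) ≤ (δ + ε) * Real.log x

/-- **Job MLO** (uses `J_EVT` of ME, LOWP). The longest run is not short, for all these random sets.
Proof. `n = 2 ^ k`: by LOWP and `J_EVT` (`K = n ^ θ`) `μ(mx A n < (1 - ε / 2) b0 n) ≤ (log² n + log 2) / n ^ θ`, summable over `k`. Borel-Cantelli; for `2 ^ k ≤ n < 2 ^ (k + 1)` use that `mx` is nondecreasing and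
`b0 (2 ^ (k + 1)) / b0 (2 ^ k) → 1`. -/
def J_MLO : Prop := ∀ (κ c : ℝ) (p : ℕ → ℝ), 0 < κ → 0 < c → Mod κ c p →
  ∀ (Ω : Type) [MeasurableSpace Ω] (μ : Measure Ω) [IsProbabilityMeasure μ] (A : Ω → Set ℕ), IsRandomSet A →
    (∀ᶠ x : ℕ in atTop, relEnt p μ A (range x) ≤ Real.log x ^ 2) → ∀ ε : ℝ, 0 < ε →
    ∀ᵐ ω ∂μ, ∀ᶠ n : ℕ in atTop, (1 - ε) * b0 κ c n ≤ mx (A ω) n

/-- **Job UPR** (uses `J_DV` of ME, SUP, ABU, ABL, ASY, ELE, MLO). The laws of the limit: upper bound for the rate (pattern: `Q222.ME.UPL`).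
Proof. `K = κ + 1`, `ℓ = log x`. (a) `E rece / ℓ → 0` for every fixed `η > 0`, `b = (1 + η) b0`: `J_DV` with `G = t rece`: `t E rece ≤ D(x) + log C_t`, `t → ∞`. (b) Let `θ_0 = 0`, `θ_1, …` be a dense sequence of reals and for fixed `r`
`G = max_{i ≤ r} G_i`, `G_i(T) = θ_i recb - (e ^ θ_i - 1) incb` if `θ_i > 0`, `= θ_i recS - (e ^ θ_i - 1) inc` if `θ_i ≤ 0`. By SUP (`W = up ∧ mx ≤ b`, resp. `W = up`) `∑ bern exp G ≤ r + 1`, so `J_DV`: `E G ≤ D(x) + log (r + 1)`; `G ≥ G_0 = 0`.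
(c) Choose `x_m → ∞` with `rece / ℓ → 0` almost surely along `x_m`. Almost surely along `x_m`: `recS / ℓ → L`, `recb / ℓ → L`, `incb ≤ ((1 + η) K + o(1)) ℓ` (ABU, ASY), `inc ≥ ((1 - η) K - o(1)) ℓ` (MLO: `mx ≥ (1 - η) b0` from some
`N` on; ABL, ASY; `D(x) ≤ (δ + 1) log x ≤ log² x`). So `liminf G / ℓ ≥ max_{i ≤ r} (θ_i L - K (e ^ θ_i - 1)) - C_r η`; Fatou: `E max_{i ≤ r} (…) ≤ δ + C_r η`. `η → 0`, then `r → ∞` (monotone convergence); `sup_i (θ_i u - K (e ^ θ_i - 1)) ≥ hK κ u` for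
`u ≥ 0` (`θ → log (u / K)`; for `u = 0` let `θ → -∞`), and `L ≥ 0` almost surely. -/
def J_UPR : Prop := ∀ (κ c : ℝ) (p : ℕ → ℝ) (δ : ℝ), 0 < κ → 0 < c → Mod κ c p → 0 ≤ δ →
  ∀ (Ω : Type) [MeasurableSpace Ω] (μ : Measure Ω) [IsProbabilityMeasure μ] (A : Ω → Set ℕ), RCls p δ μ A →
    ∀ L : Ω → ℝ, Measurable L → (∀ᵐ ω ∂μ, Tendsto (fun x : ℕ => (recS (A ω) x : ℝ) / Real.log x) atTop (𝓝 (L ω))) →
      ∫⁻ ω, ENNReal.ofReal (hK κ (L ω)) ∂μ ≤ ENNReal.ofReal δ

/-- **Job SEQ.** The sequential construction.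
Proof. `Ω' = ℕ → ℝ` with independent uniform coordinates on `[0, 1]` (pattern: `Q285.ME.Constr`, `Q162.LW.Cns`). `B x u 0 = ∅`, `B x u (n + 1) = insert n (B x u n)` if `u n < r x n (B x u n)`, else `B x u n`; `A x u = {n | n ∈ B x u (n + 1)}`.
`B x u N = A x u ∩ range N`. By induction on `N`: for `T ⊆ range N` the set `{(x, u) | B x u N = T}` is measurable and for fixed `x` it depends on `u_0, …, u_{N-1}` only and has probability `seqlaw (r x) N T` (`u_N` is independent of these). -/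
def J_SEQ : Prop := ∀ (X : Type) [MeasurableSpace X] (r : X → ℕ → Finset ℕ → ℝ), (∀ n T, Measurable (fun x => r x n T)) →
  (∀ x n T, 0 ≤ r x n T ∧ r x n T ≤ 1) →
  ∃ (Ω' : Type) (_ : MeasurableSpace Ω') (μ' : Measure Ω') (_ : IsProbabilityMeasure μ') (A : X → Ω' → Set ℕ),
    (∀ n, MeasurableSet {z : X × Ω' | n ∈ A z.1 z.2}) ∧ ∀ x N T, T ⊆ range N → lawOn μ' (A x) (range N) T = seqlaw (r x) N T

/-- **Job CRE.** The chain rule.
Proof. Induction on `N` as in SMG: for `T ⊆ range N`, `a = seqlaw r N T`, `ρ = r N T`, the terms of `T` and `insert N T` on the left are `a (1 - ρ) log (a (1 - ρ) / (b (1 - p N))) + a ρ log (a ρ / (b p N))`, `b = bern p (range N) T > 0`, which is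
`a log (a / b) + a kl ρ (p N)` (also if `a = 0`, `ρ = 0` or `ρ = 1`). -/
def J_CRE : Prop := ∀ (r : ℕ → Finset ℕ → ℝ), (∀ n T, 0 ≤ r n T ∧ r n T ≤ 1) → ∀ p : ℕ → ℝ, (∀ n, 0 < p n ∧ p n < 1) → ∀ N : ℕ,
  ∑ T ∈ (range N).powerset, seqlaw r N T * Real.log (seqlaw r N T / bern p (range N) T) =
    ∑ T ∈ (range N).powerset, seqlaw r N T * ∑ n ∈ range N, kl (r n (pre T n)) (p n)

open Classical in
/-- The tilted law: at the `up` steps with `mx ≤ b` the probability of `n ∈ A` is multiplied by `v n`. -/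
noncomputable def tilt (p b v : ℕ → ℝ) (n : ℕ) (T : Finset ℕ) : ℝ :=
  if up (T : Set ℕ) n ∧ (mx (T : Set ℕ) n : ℝ) ≤ b n then v n * p n else p n

/-- `A` has the tilted law, `b = 2 b0`. -/
structure Tilted (κ c : ℝ) (p v : ℕ → ℝ) {Ω : Type} [MeasurableSpace Ω] (μ : Measure Ω) (A : Ω → Set ℕ) : Prop where
  rand : IsRandomSet A
  law : ∀ N T, T ⊆ range N → lawOn μ A (range N) T = seqlaw (tilt p (fun n => 2 * b0 κ c n) v) N T

/-- The conditions on the tilt. -/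
structure TiltOK (p v : ℕ → ℝ) : Prop where
  pos : ∀ n, 0 < v n
  lt_one : ∀ n, v n * p n < 1
  slow : ∀ᶠ n : ℕ in atTop, Real.log n ^ (-(1 / 2) : ℝ) ≤ v n

/-- **Job TUP** (uses SMG). The longest run is not long, for the tilted laws.
Proof. Call `n` a start if `up A n` and not `up A (n - 1)`. At a start, with `m = mx A n`, the run `[n - m, n)` contains no `up` step (an `up` step `j < n` in the run would make all later steps of the run `up` steps; `n - m - 1 ∈ A` or `n = m`, and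
`not_up_of_mem`), so (SMG, with the product formula) the probability that `n` is a start with `mx = m` is at most `∏_{j ∈ [n - m, n)} (1 - p j) ≤ (1 - p n) ^ m`. (N1) `n` is a start with `mx > (1 + ε / 3) b0 n`: probability at most
`(1 - p n) ^ ((1 + ε / 3) b0 n) / p n ≤ n ^ (-(1 + ε / 4))` for large `n` (`ε ≤ 1`), summable. (N2) `n` is a start with `mx ≤ 2 b0 n` and `[n, n + y n) ∩ A = ∅`, `y n = ⌈(ε / 3) b0 n⌉₊`: each further step has conditional probability of absence at most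
`1 - min (v j) 1 * p j`, in total at most `exp (-(ε / 8) (log n) ^ (1 / 2))` for large `n`; a start increases `mx`, so the number of the starts `n ∈ [2 ^ k, 2 ^ (k + 1))` with `mx ≤ 2 b0 n` is at most `2 b0 (2 ^ (k + 1)) + 1`: the sum of the
probabilities of (N2) over this block is at most `(2 b0 (2 ^ (k + 1)) + 1) exp (-(ε / 8) (k log 2) ^ (1 / 2))`, summable over `k`. So almost surely there is `N₁` with no (N1), (N2) for `n ≥ N₁`. Also `A` is infinite (`P(A ∩ [N, N') = ∅) ≤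
∏ (1 - min (v j) 1 * p j) → 0`). Let `a ∈ A`, `a ≥ N₁`, `n > a` with `up A n`, and `n' ≤ n` the start such that all `n', …, n` are `up` steps: the run is after `a`, so `n' > N₁`, and `mx A n = mx A n' + (n - n')`, the integers `n', …, n - 1` are outside
`A`: by (N1) `mx A n' ≤ (1 + ε / 3) b0 n'`, by (N2) `n - n' < y n'`. So `mx A n ≤ (1 + 2 ε / 3) b0 n + 1`. Between the `up` steps `mx` is constant. -/
def J_TUP : Prop := ∀ (κ c : ℝ) (p v : ℕ → ℝ), 0 < κ → 0 < c → Mod κ c p → TiltOK p v →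
  ∀ (Ω : Type) [MeasurableSpace Ω] (μ : Measure Ω) [IsProbabilityMeasure μ] (A : Ω → Set ℕ), Tilted κ c p v μ A → ∀ ε : ℝ, 0 < ε →
    ∀ᵐ ω ∂μ, ∀ᶠ n : ℕ in atTop, (mx (A ω) n : ℝ) ≤ (1 + ε) * b0 κ c n

/-- **Job TRC** (uses SUP, CRE, ABU, ABL, ASY, MLO, TUP, `J_KLB` of ME). The number of record gaps for the tilted laws.
Proof. `K = κ + 1`, `b = 2 b0`, `W = up ∧ mx ≤ b`, `v ≤ C`. (a) `relEnt p μ A (range x) = E ∑_{n < x, W} kl (v n p n) (p n)` (CRE) `≤ C' + C' E incb ≤ C'' log x` (KLB for the `n` with `p n ≤ 1 / 2`; ABU, ASY), so MLO applies. With TUP: almost surely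
`mx / b0 → 1`. So eventually `mx ≤ b`, `recb - recS` and `incb - inc` are bounded, and `incb / log x → K` (ABL with `(1 - ε) b0`; ABU with `(1 + ε) b0`: eventually `mx ≤ (1 + ε) b0`; ASY). As `incb ≤ (2 K + o(1)) log x` always (ABU), bounded convergence gives
`E incb / log x → K`. (b) `Y = ∑_{n < x, W} v n p n`: `Y / log x → V K` almost surely (`v → V`, `incb → ∞`), `Y ≤ C'' log x`. SUP with `s = ± σ`, `r = tilt`: `P(|recb - Y| > ε log x) ≤ 2 exp (-σ ε log x + (e ^ σ - 1 - σ) C'' log x) ≤ 2 x ^ (-θ)`; Borel-Cantelli along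
`x = 2 ^ k`, monotonicity in between. -/
def J_TRC : Prop := ∀ (κ c : ℝ) (p v : ℕ → ℝ) (V : ℝ), 0 < κ → 0 < c → Mod κ c p → TiltOK p v → Tendsto v atTop (𝓝 V) →
  ∀ (Ω : Type) [MeasurableSpace Ω] (μ : Measure Ω) [IsProbabilityMeasure μ] (A : Ω → Set ℕ), Tilted κ c p v μ A →
    (∀ᵐ ω ∂μ, Tendsto (fun x : ℕ => (recS (A ω) x : ℝ) / Real.log x) atTop (𝓝 ((κ + 1) * V))) ∧
    Tendsto (fun x : ℕ => (∑ T ∈ (range x).powerset, seqlaw (tilt p (fun n => 2 * b0 κ c n) v) x T * incb p (fun n => 2 * b0 κ c n) (T : Set ℕ) x) / Real.log x)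
      atTop (𝓝 (κ + 1))

/-- **Job LOX** (uses SEQ, CRE, ABU, ASY, TRC, `J_KLB` of ME, `J_MIX` of LW). The laws of the limit: construction.
Proof. `K = κ + 1`, `X = ℝ`. Let `l n = log n ^ (-1 / 2)`, `u n = log n ^ (κ / 4)`, `n₁` such that `l n ≤ 1 ≤ u n`, `p n ≤ 1 / 2`, `u n * p n ≤ 1 / 2` for `n ≥ n₁`. For a real `a` let `v a n = max (l n) (min (a / K) (u n))` for `n ≥ n₁` and `1` for `n < n₁`
(measurable in `a`; TiltOK; tends to `a / K` if `a ≥ 0`). SEQ with `r a = tilt p (2 b0) (v a)`; `A' z = A z.1 z.2` on `X × Ω'`, `L z = z.1`. For fixed `a ≥ 0`, by CRE and KLB, `relEnt p μ' (A a) (range x) = E ∑_{n < x, W} kl (v p) p ≤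
hfun (a / K) E_a incb + ∑_{W} (u n ^ 2 + 1) p n ^ 2` (`hfun (v a n) ≤ hfun (a / K)`, as `hfun` decreases on `[0, 1]` and increases on `[1, ∞)`), the last sum is `≤ o(1) log x` uniformly in `a` and the random set (`(u n ^ 2 + 1) p n → 0`; ABU, ASY: `incb ≤ (2 K + o(1)) log x`).
`J_MIX`: `relEnt ≤ ∫ … dν ≤ ∫ hfun (a / K) E_a incb dν + o(log x)`, and `E_a incb / log x → K` (TRC), bounded by `2 K + 1`: dominated convergence (`K hfun (a / K) = hK κ a`, integrable) gives `(∫ hK dν + o(1)) log x ≤ (δ + o(1)) log x`.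
TRC for fixed `a ≥ 0`: `recS / log → K (a / K) = a` almost surely; Fubini. -/
def J_LOX : Prop := ∀ (κ c : ℝ) (p : ℕ → ℝ) (δ : ℝ), 0 < κ → 0 < c → Mod κ c p → 0 ≤ δ → ∀ (ν : Measure ℝ) [IsProbabilityMeasure ν], ν (Set.Iio 0) = 0 →
  ∫⁻ u, ENNReal.ofReal (hK κ u) ∂ν ≤ ENNReal.ofReal δ →
  ∃ (Ω : Type) (_ : MeasurableSpace Ω) (μ : Measure Ω) (_ : IsProbabilityMeasure μ) (A : Ω → Set ℕ) (L : Ω → ℝ), RCls p δ μ A ∧
    Measurable L ∧ μ.map L = ν ∧ ∀ᵐ ω ∂μ, Tendsto (fun x : ℕ => (recS (A ω) x : ℝ) / Real.log x) atTop (𝓝 (L ω))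

/-- **Job CMP.** The two ways to count record gaps.
Proof. `S = ∅`: both are `0`. Let `a = min S`. For `n ∈ S`, `n > a`, with predecessor `m ∈ S`: `up S n` iff the run `(m, n)` (length `n - m - 1`) is longer than all runs before, the initial run `[0, a)` included. So `up S n` implies `IsRec S n`, and
`IsRec S n` implies `up S n` if `n - m - 1 > a` (and `≥ 1`). The distances `n - m` at the `n` with `IsRec` are strictly increasing, so at most `a + 1` of them are `≤ a + 1`. `n = a` may be counted by `recS`. `C = a + 2`. -/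
def J_CMP : Prop := ∀ S : Set ℕ, ∃ C : ℝ, ∀ x : ℕ, |(rc S x : ℝ) - recS S x| ≤ C

end Pool.Agent.Q120.RC
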